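import Pool.Agent.X238.Vraag.Words

/-!
# The action on reduced words modulo commutation
-/

namespace Pool.Agent.X238.Vraag

variable {V : Type} [DecidableEq V] {Γ : SimpleGraph V}

open Classical in
/-- multiply a word by a letter on the left, keeping it reduced -/
noncomputable def push (Γ : SimpleGraph V) (x : V × Bool) (w : List (V × Bool)) :
    List (V × Bool) :=
  if h : FA Γ (inv x) w then (FA_iff.mp h).choose else x :: w

theorem push_of_FA {x : V × Bool} {w : List (V × Bool)} (h : FA Γ (inv x) w) :
    Eqv Γ w (inv x :: push Γ x w) := by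
  rw [push, dif_pos h]
  exact (FA_iff.mp h).choose_spec

theorem push_of_not {x : V × Bool} {w : List (V × Bool)} (h : ¬ FA Γ (inv x) w) :
    push Γ x w = x :: w := by
  rw [push, dif_neg h]

theorem FA.eqv {x : V × Bool} {w w' : List (V × Bool)} (h : FA Γ x w) (e : Eqv Γ w w') :
    FA Γ x w' := by
  obtain ⟨u, hu⟩ := FA_iff.mp h
  exact FA_iff.mpr ⟨u, e.symm.trans hu⟩

theorem push_eqv (x : V × Bool) {w w' : List (V × Bool)} (e : Eqv Γ w w') :
    Eqv Γ (push Γ x w) (push Γ x w') := by
  by_cases h : FA Γ (inv x) w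
  · have h' := h.eqv e
    exact ((push_of_FA h).symm.trans (e.trans (push_of_FA h'))).cancel
  · have h' : ¬ FA Γ (inv x) w' := fun h2 => h (h2.eqv e.symm)
    rw [push_of_not h, push_of_not h']
    exact e.cons x

theorem Red_push (x : V × Bool) {w : List (V × Bool)} (hw : Red Γ w) : Red Γ (push Γ x w) := by
  by_cases h : FA Γ (inv x) w
  · exact (Red_cons.mp (hw.eqv (push_of_FA h))).1
  · rw [push_of_not h]
    exact Red_cons.mpr ⟨hw, h⟩

theorem push_push_inv (x : V × Bool) {w : List (V × Bool)} (hw : Red Γ w) :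
    Eqv Γ (push Γ x (push Γ (inv x) w)) w := by
  by_cases h : FA Γ (inv (inv x)) w
  · have h1 := push_of_FA h
    rw [inv_inv] at h1
    have h2 : ¬ FA Γ (inv x) (push Γ (inv x) w) := (Red_cons.mp (hw.eqv h1)).2
    rw [push_of_not h2]
    exact h1.symm
  · rw [push_of_not h]
    have h2 : FA Γ (inv x) (inv x :: w) := FA_cons.mpr (Or.inl rfl)
    exact (push_of_FA h2).cancel.symm

theorem FA_push {x y : V × Bool} (hadj : Γ.Adj x.1 y.1) {w : List (V × Bool)} :
    FA Γ x (push Γ y w) ↔ FA Γ x w := by
  have key : ∀ (z : V × Bool) (u : List (V × Bool)), Γ.Adj x.1 z.1 →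
      (FA Γ x (z :: u) ↔ FA Γ x u) := by
    intro z u hz
    rw [FA_cons]
    constructor
    · rintro (rfl | h)
      · exact absurd hz (Γ.loopless.irrefl _)
      · exact h.2
    · intro h; exact Or.inr ⟨hz, h⟩
  by_cases h : FA Γ (inv y) w
  · have h1 := push_of_FA h
    constructor
    · intro h2
      exact ((key (inv y) _ hadj).mpr h2).eqv h1.symm
    · intro h2
      exact (key (inv y) _ hadj).mp (h2.eqv h1)
  · rw [push_of_not h]
    exact key y w hadj

theorem push_comm {x y : V × Bool} (hadj : Γ.Adj x.1 y.1) {w : List (V × Bool)} :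
    Eqv Γ (push Γ x (push Γ y w)) (push Γ y (push Γ x w)) := by
  have hx : FA Γ (inv x) (push Γ y w) ↔ FA Γ (inv x) w := FA_push (by simpa using hadj)
  have hy : FA Γ (inv y) (push Γ x w) ↔ FA Γ (inv y) w := FA_push (by simpa using hadj.symm)
  by_cases h1 : FA Γ (inv x) w
  · have e1 := push_of_FA h1
    have e2 := push_of_FA (hx.mpr h1)
    by_cases h2 : FA Γ (inv y) w
    · have e3 := push_of_FA h2
      have e4 := push_of_FA (hy.mpr h2)
      -- w ~ inv x :: inv y :: P' and w ~ inv y :: inv x :: P
      have a1 : Eqv Γ w (inv x :: inv y :: push Γ y (push Γ x w)) :=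
        e1.trans (e4.cons _)
      have a2 : Eqv Γ w (inv y :: inv x :: push Γ x (push Γ y w)) :=
        e3.trans (e2.cons _)
      have a3 : Eqv Γ (inv y :: inv x :: push Γ x (push Γ y w))
          (inv x :: inv y :: push Γ x (push Γ y w)) := comm_swap (by simpa using hadj)
      exact (a3.symm.trans (a2.symm.trans a1)).cancel.cancel
    · have h3 : ¬ FA Γ (inv y) (push Γ x w) := fun h => h2 (hy.mp h)
      rw [push_of_not h3]
      -- push y w = y :: w ~ inv x :: push x (y :: w)
      rw [push_of_not h2] at e2 ⊢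
      have a1 : Eqv Γ (y :: w) (y :: inv x :: push Γ x w) := e1.cons y
      have a2 : Eqv Γ (y :: inv x :: push Γ x w) (inv x :: y :: push Γ x w) :=
        comm_swap (by simpa using hadj)
      exact (e2.symm.trans (a1.trans a2)).cancel
  · have h1' : ¬ FA Γ (inv x) (push Γ y w) := fun h => h1 (hx.mp h)
    rw [push_of_not h1']
    by_cases h2 : FA Γ (inv y) w
    · have e3 := push_of_FA h2
      have e4 := push_of_FA (hy.mpr h2)
      rw [push_of_not h1] at e4 ⊢
      have a1 : Eqv Γ (x :: w) (x :: inv y :: push Γ y w) := e3.cons x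
      have a2 : Eqv Γ (x :: inv y :: push Γ y w) (inv y :: x :: push Γ y w) :=
        comm_swap (by simpa using hadj.symm)
      exact (a2.symm.trans (a1.symm.trans e4)).cancel
    · have h3 : ¬ FA Γ (inv y) (push Γ x w) := fun h => h2 (hy.mp h)
      rw [push_of_not h3, push_of_not h1, push_of_not h2]
      exact comm_swap hadj.symm

theorem push_relw {ψ : Equiv.Perm V} (hψ : Pres Γ ψ) (x : V × Bool) (w : List (V × Bool)) :
    Eqv Γ (push Γ (rel ψ x) (relw ψ w)) (relw ψ (push Γ x w)) := by
  by_cases h : FA Γ (inv x) w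
  · have h2 : FA Γ (inv (rel ψ x)) (relw ψ w) := h.relw hψ
    have e1 := push_of_FA h2
    have e2 := (push_of_FA h).relw hψ
    rw [relw_cons, rel_inv] at e2
    exact (e1.symm.trans e2).cancel
  · have h2 : ¬ FA Γ (inv (rel ψ x)) (relw ψ w) := by
      rw [FA_relw hψ, ← rel_inv, ← rel_mul, inv_mul_cancel, rel_one]
      exact h
    rw [push_of_not h, push_of_not h2, relw_cons]
    exact Eqv.refl _

theorem length_push_le (x : V × Bool) (w : List (V × Bool)) :
    (push Γ x w).length ≤ w.length + 1 := by
  by_cases h : FA Γ (inv x) w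
  · have := (push_of_FA h).length
    rw [List.length_cons] at this
    omega
  · rw [push_of_not h]; simp

/-- the setoid of reduced words modulo commutation -/
def rsetoid (Γ : SimpleGraph V) : Setoid {w : List (V × Bool) // Red Γ w} where
  r w w' := Eqv Γ w.1 w'.1
  iseqv := ⟨fun _ => Eqv.refl _, fun h => h.symm, fun h h' => h.trans h'⟩

/-- reduced words modulo commutation -/
def Q (Γ : SimpleGraph V) : Type := Quotient (rsetoid Γ)

/-- the class of a reduced word -/
def cls {w : List (V × Bool)} (hw : Red Γ w) : Q Γ := Quotient.mk (rsetoid Γ) ⟨w, hw⟩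

theorem cls_eq {w w' : List (V × Bool)} {hw : Red Γ w} {hw' : Red Γ w'} (h : Eqv Γ w w') :
    cls hw = cls hw' := Quotient.sound h

/-- length of a class -/
def qlen : Q Γ → ℕ := Quotient.lift (fun w => w.1.length) (fun _ _ h => Eqv.length h)

theorem qlen_cls {w : List (V × Bool)} (hw : Red Γ w) : qlen (cls hw) = w.length := rfl

/-- the action of a letter, as a map -/
noncomputable def pushQ (x : V × Bool) : Q Γ → Q Γ :=
  Quotient.map' (s₁ := rsetoid Γ) (s₂ := rsetoid Γ) (fun w => ⟨push Γ x w.1, Red_push x w.2⟩)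
    (fun _ _ h => push_eqv x h)

theorem pushQ_cls (x : V × Bool) {w : List (V × Bool)} (hw : Red Γ w) :
    pushQ x (cls hw) = cls (Red_push x hw) := rfl

/-- the action of a letter -/
noncomputable def perm (Γ : SimpleGraph V) (x : V × Bool) : Equiv.Perm (Q Γ) where
  toFun := pushQ x
  invFun := pushQ (inv x)
  left_inv q := by
    induction q using Quotient.inductionOn' with
    | _ w =>
      have := push_push_inv (Γ := Γ) (inv x) w.2
      rw [inv_inv] at this
      exact cls_eq this
  right_inv q := by
    induction q using Quotient.inductionOn' with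
    | _ w => exact cls_eq (push_push_inv (Γ := Γ) x w.2)

theorem perm_apply (x : V × Bool) {w : List (V × Bool)} (hw : Red Γ w) :
    perm Γ x (cls hw) = cls (Red_push x hw) := rfl

theorem perm_inv (x : V × Bool) : (perm Γ x)⁻¹ = perm Γ (inv x) := by
  ext q
  rfl

theorem qlen_perm (x : V × Bool) (q : Q Γ) : qlen (perm Γ x q) ≤ qlen q + 1 := by
  induction q using Quotient.inductionOn' with
  | _ w => exact length_push_le x w.1

theorem perm_comm {x y : V × Bool} (h : Γ.Adj x.1 y.1) :
    perm Γ x * perm Γ y = perm Γ y * perm Γ x := by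
  ext q
  induction q using Quotient.inductionOn' with
  | _ w => exact cls_eq (push_comm h)

/-- the action of a graph automorphism -/
noncomputable def relQ {ψ : Equiv.Perm V} (hψ : Pres Γ ψ) : Q Γ → Q Γ :=
  Quotient.map' (s₁ := rsetoid Γ) (s₂ := rsetoid Γ) (fun w => ⟨relw ψ w.1, w.2.relw hψ⟩)
    (fun _ _ h => Eqv.relw hψ h)

/-- the action of a graph automorphism, as a permutation -/
noncomputable def permA {ψ : Equiv.Perm V} (hψ : Pres Γ ψ) : Equiv.Perm (Q Γ) where
  toFun := relQ hψ
  invFun := relQ hψ.inv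
  left_inv q := by
    induction q using Quotient.inductionOn' with
    | _ w =>
      refine cls_eq (hw := (w.2.relw hψ).relw hψ.inv) ?_
      rw [← relw_mul, inv_mul_cancel, relw_one]
      exact Eqv.refl _
  right_inv q := by
    induction q using Quotient.inductionOn' with
    | _ w =>
      refine cls_eq (hw := (w.2.relw hψ.inv).relw hψ) ?_
      rw [← relw_mul, mul_inv_cancel, relw_one]
      exact Eqv.refl _

theorem permA_apply {ψ : Equiv.Perm V} (hψ : Pres Γ ψ) {w : List (V × Bool)} (hw : Red Γ w) :
    permA hψ (cls hw) = cls (hw.relw hψ) := rfl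

theorem permA_inv {ψ : Equiv.Perm V} (hψ : Pres Γ ψ) : (permA hψ)⁻¹ = permA hψ.inv := by
  ext q
  rfl

theorem qlen_permA {ψ : Equiv.Perm V} (hψ : Pres Γ ψ) (q : Q Γ) :
    qlen (permA hψ q) = qlen q := by
  induction q using Quotient.inductionOn' with
  | _ w => exact length_relw ψ w.1

theorem permA_mul {ψ χ : Equiv.Perm V} (hψ : Pres Γ ψ) (hχ : Pres Γ χ) :
    permA hψ * permA hχ = permA (hψ.mul hχ) := by
  ext q
  induction q using Quotient.inductionOn' with
  | _ w =>
    refine cls_eq (hw := (w.2.relw hχ).relw hψ) ?_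
    rw [relw_mul]
    exact Eqv.refl _

theorem permA_pow {ψ : Equiv.Perm V} (hψ : Pres Γ ψ) (n : ℕ) :
    permA hψ ^ n = permA (hψ.pow n) := by
  induction n with
  | zero =>
    ext q
    induction q using Quotient.inductionOn' with
    | _ w =>
      refine cls_eq (hw := w.2) ?_
      rw [pow_zero, relw_one]
      exact Eqv.refl _
  | succ n ih =>
    rw [pow_succ, ih, permA_mul]
    ext q
    induction q using Quotient.inductionOn' with
    | _ w =>
      refine cls_eq (hw := w.2.relw ((hψ.pow n).mul hψ)) ?_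
      rw [pow_succ]
      exact Eqv.refl _

/-- conjugation of a letter by a graph automorphism -/
theorem permA_conj {ψ : Equiv.Perm V} (hψ : Pres Γ ψ) (x : V × Bool) :
    permA hψ * perm Γ x = perm Γ (rel ψ x) * permA hψ := by
  ext q
  induction q using Quotient.inductionOn' with
  | _ w =>
    exact cls_eq (hw := (Red_push x w.2).relw hψ) (hw' := Red_push _ (w.2.relw hψ))
      (push_relw hψ x w.1).symm

end Pool.Agent.X238.Vraag
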