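import Pool.Agent.X238.Vraag.Grp

/-!
# Conjugacy geodesics: characterization
-/

namespace Pool.Agent.X238.Vraag

variable {V : Type} {Γ : SimpleGraph V} {φ : Equiv.Perm V} {m : ℕ}

/-- twisted cyclic cancellation -/
def Defect (Γ : SimpleGraph V) (ψ : Equiv.Perm V) (w : List (V × Bool)) : Prop :=
  ∃ i : ℕ, 1 ≤ i ∧ ∃ x, LA Γ x w ∧ (∀ l, 0 < l → l < i → ∀ y ∈ w, Γ.Adj x.1 ((ψ ^ l) y.1)) ∧
    FA Γ (rel (ψ ^ i)⁻¹ (inv x)) w

theorem FA_tpow {ψ : Equiv.Perm V} (hψ : Pres Γ ψ) {w : List (V × Bool)} :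
    ∀ (k : ℕ) (z : V × Bool), FA Γ z (tpow ψ w k) → ∃ i, i < k ∧
      (∀ l, l < i → ∀ y ∈ w, Γ.Adj z.1 ((ψ ^ l) y.1)) ∧ FA Γ (rel (ψ ^ i)⁻¹ z) w := by
  intro k
  induction k with
  | zero => intro z h; exact absurd h FA_nil
  | succ k ih =>
    intro z h
    rw [tpow, FA_append] at h
    rcases h with h | ⟨h1, h2⟩
    · refine ⟨0, by omega, fun l hl => absurd hl (by omega), ?_⟩
      rw [pow_zero, inv_one, rel_one]
      exact h
    · rw [FA_relw hψ] at h2
      obtain ⟨i, hi, hl, hF⟩ := ih _ h2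
      refine ⟨i + 1, by omega, fun l hl' y hy => ?_, ?_⟩
      · cases l with
        | zero => simpa using h1 y hy
        | succ l =>
          have := hl l (by omega) y hy
          rw [← hψ] at this
          have e : ψ (rel ψ⁻¹ z).1 = z.1 := ψ.apply_symm_apply z.1
          rw [e, ← Equiv.Perm.mul_apply, ← pow_succ'] at this
          exact this
      · rw [← rel_mul, ← mul_inv_rev, ← pow_succ'] at hF
        exact hF

theorem Red_tpow [DecidableEq V] {ψ : Equiv.Perm V} (hψ : Pres Γ ψ) {w : List (V × Bool)}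
    (hw : Red Γ w) (hd : ¬ Defect Γ ψ w) (k : ℕ) : Red Γ (tpow ψ w k) := by
  induction k with
  | zero => exact Red_nil
  | succ k ih =>
    rw [tpow]
    refine Red_append hw (ih.relw hψ) fun x hx hF => hd ?_
    rw [FA_relw hψ] at hF
    obtain ⟨i, -, hl, hF⟩ := FA_tpow hψ k _ hF
    refine ⟨i + 1, by omega, x, hx, fun l h0 hl' y hy => ?_, ?_⟩
    · obtain ⟨l, rfl⟩ : ∃ l', l = l' + 1 := ⟨l - 1, by omega⟩
      have := hl l (by omega) y hy
      rw [← hψ] at this
      have e : ψ (rel ψ⁻¹ (inv x)).1 = x.1 := ψ.apply_symm_apply x.1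
      rw [e, ← Equiv.Perm.mul_apply, ← pow_succ'] at this
      exact this
    · rw [← rel_mul, ← mul_inv_rev, ← pow_succ'] at hF
      exact hF

theorem Pres.zpow {ψ : Equiv.Perm V} (h : Pres Γ ψ) (j : ℤ) : Pres Γ (ψ ^ j) := by
  obtain ⟨n, rfl | rfl⟩ := j.eq_nat_or_neg
  · rw [zpow_natCast]; exact h.pow n
  · rw [zpow_neg, zpow_natCast]; exact (h.pow n).inv

/-- Lower bound for the number of vertex letters in a conjugacy class. -/
theorem vpart_le [DecidableEq V] (hφ : Pres Γ φ) (hm : φ ^ m = 1)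
    {W W' : List ((V ⊕ Unit) × Bool)} (hw : Red Γ (vpart φ W))
    (hd : ¬ Defect Γ (φ ^ (-texp W)) (vpart φ W)) (hc : IsConj (ev Γ φ m W) (ev Γ φ m W')) :
    (vpart φ W).length ≤ (vpart φ W').length := by
  rw [isConj_iff] at hc
  obtain ⟨c, hc⟩ := hc
  obtain ⟨C1, hC1⟩ := ev_surjective (c⁻¹)
  obtain ⟨C2, hC2⟩ := ev_surjective c
  have hg : ∀ k : ℕ, ev Γ φ m W ^ k = c⁻¹ * ev Γ φ m W' ^ k * c := by
    intro k
    rw [← hc]
    rw [conj_pow]
    group
  have hW' : ∀ (k : ℕ) (q : Q Γ), qlen (act hφ hm (ev Γ φ m W' ^ k) q) ≤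
      k * (vpart φ W').length + qlen q := by
    intro k
    induction k with
    | zero => intro q; simp
    | succ k ih =>
      intro q
      rw [pow_succ', map_mul, Equiv.Perm.mul_apply]
      have h1 := qlen_act hφ hm W' (act hφ hm (ev Γ φ m W' ^ k) q)
      have h2 := ih q
      have h3 : (k + 1) * (vpart φ W').length =
        k * (vpart φ W').length + (vpart φ W').length := by ring
      omega
  have hlow : ∀ k : ℕ, qlen (act hφ hm (ev Γ φ m W ^ k) e0) = k * (vpart φ W).length := by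
    intro k
    rw [ev_eq W, pow_eq, map_mul, Equiv.Perm.mul_apply, act_tt_e0,
      act_red hφ hm (Red_tpow (hφ.zpow _) hw hd k), qlen_cls, length_tpow]
  have hup : ∀ k : ℕ, k * (vpart φ W).length ≤
      (vpart φ C1).length + k * (vpart φ W').length + (vpart φ C2).length := by
    intro k
    rw [← hlow k, hg k, map_mul, map_mul, Equiv.Perm.mul_apply, Equiv.Perm.mul_apply,
      ← hC1, ← hC2]
    have h1 := qlen_act hφ hm C1 (act hφ hm (ev Γ φ m W' ^ k) (act hφ hm (ev Γ φ m C2) e0))
    have h2 := hW' k (act hφ hm (ev Γ φ m C2) e0)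
    have h3 := qlen_act hφ hm C2 (e0 : Q Γ)
    have h4 : qlen (e0 : Q Γ) = 0 := rfl
    rw [h4] at h3
    rw [hC2] at h1 h2 h3 ⊢
    omega
  by_contra hcon
  push Not at hcon
  have h5 := hup ((vpart φ C1).length + (vpart φ C2).length + 1)
  have h6 : ((vpart φ C1).length + (vpart φ C2).length + 1) * ((vpart φ W').length + 1) ≤
      ((vpart φ C1).length + (vpart φ C2).length + 1) * (vpart φ W).length :=
    Nat.mul_le_mul_left _ hcon
  have h7 : ((vpart φ C1).length + (vpart φ C2).length + 1) * ((vpart φ W').length + 1) =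
      ((vpart φ C1).length + (vpart φ C2).length + 1) * (vpart φ W').length +
      ((vpart φ C1).length + (vpart φ C2).length + 1) := by ring
  omega

/-! ### Words in `t` only -/

/-- total exponent -/
def tsum : List Bool → ℤ
  | [] => 0
  | b :: e => (if b then 1 else -1) + tsum e

/-- minimal length of a word in `t^{±1}` representing `t^j` -/
noncomputable def tcost (m : ℕ) (j : ZMod m) : ℕ :=
  sInf {n | ∃ e : List Bool, e.length = n ∧ ((tsum e : ℤ) : ZMod m) = j}

/-- the word in `t` -/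
def tw (e : List Bool) : List ((V ⊕ Unit) × Bool) := e.map fun b => (Sum.inr (), b)

theorem tcost_le (e : List Bool) : tcost m ((tsum e : ℤ) : ZMod m) ≤ e.length :=
  Nat.sInf_le ⟨e, rfl, rfl⟩

theorem tsum_replicate (n : ℕ) : tsum (List.replicate n true) = n := by
  induction n with
  | zero => rfl
  | succ n ih => rw [List.replicate_succ, tsum, ih]; push_cast; simp; ring

theorem exists_tcost (hm0 : 0 < m) (j : ZMod m) :
    ∃ e : List Bool, e.length = tcost m j ∧ ((tsum e : ℤ) : ZMod m) = j := by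
  have hne : {n | ∃ e : List Bool, e.length = n ∧ ((tsum e : ℤ) : ZMod m) = j}.Nonempty := by
    have : NeZero m := ⟨hm0.ne'⟩
    refine ⟨_, List.replicate j.val true, rfl, ?_⟩
    rw [tsum_replicate]
    simp
  exact Nat.sInf_mem hne

theorem tcost_le_m (hm0 : 0 < m) (j : ZMod m) : tcost m j ≤ m := by
  have : NeZero m := ⟨hm0.ne'⟩
  have h1 := tcost_le (m := m) (List.replicate j.val true)
  rw [tsum_replicate, List.length_replicate] at h1
  have h2 := j.val_lt
  have h3 : (((j.val : ℕ) : ℤ) : ZMod m) = j := by simp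
  rw [h3] at h1
  omega

theorem ev_tw (e : List Bool) : ev Γ φ m (tw e) = tt Γ φ m ^ tsum e := by
  induction e with
  | nil => simp [tw, tsum]
  | cons b e ih =>
    have : tw (V := V) (b :: e) = (Sum.inr (), b) :: tw e := rfl
    rw [this, ev_cons, ih, tsum, zpow_add]
    cases b
    · rw [ev_t_false]; simp
    · rw [ev_t_true]; simp

theorem tt_zpow_eq {i j : ℤ} (h : (i : ZMod m) = (j : ZMod m)) :
    tt Γ φ m ^ i = tt Γ φ m ^ j := by
  rw [ZMod.intCast_eq_intCast_iff] at h
  obtain ⟨c, hc⟩ := h.dvd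
  have : j = i + m * c := by linarith
  rw [this, zpow_add, zpow_mul, zpow_natCast, tt_pow, one_zpow, mul_one]

/-- the letters `t^{±1}` of a word -/
def tlets : List ((V ⊕ Unit) × Bool) → List Bool
  | [] => []
  | (Sum.inl _, _) :: W => tlets W
  | (Sum.inr _, b) :: W => b :: tlets W

theorem tlets_length (W : List ((V ⊕ Unit) × Bool)) : (tlets W).length = tcount W := by
  induction W with
  | nil => rfl
  | cons x W ih =>
    obtain ⟨v | u, b⟩ := x
    · rw [tlets, tcount, ih]
    · rw [tlets, tcount, List.length_cons, ih]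

theorem tlets_sum (W : List ((V ⊕ Unit) × Bool)) : tsum (tlets W) = texp W := by
  induction W with
  | nil => rfl
  | cons x W ih =>
    obtain ⟨v | u, b⟩ := x
    · rw [tlets, texp, ih]
    · rw [tlets, texp, tsum, ih]

theorem tcost_le_tcount (W : List ((V ⊕ Unit) × Bool)) :
    tcost m ((texp W : ℤ) : ZMod m) ≤ tcount W := by
  rw [← tlets_length, ← tlets_sum]
  exact tcost_le _

/-! ### The homomorphism to the cyclic group -/

/-- the homomorphism to `ZMod m` on generators -/
def chiGen (m : ℕ) : V ⊕ Unit → Multiplicative (ZMod m)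
  | Sum.inl _ => 1
  | Sum.inr _ => Multiplicative.ofAdd 1

theorem chi_rels : ∀ r ∈ rels Γ φ m, FreeGroup.lift (chiGen (V := V) m) r = 1 := by
  rintro r ((⟨u, v, huv, rfl⟩ | rfl) | ⟨v, rfl⟩)
  · simp [chiGen]
  · simp only [map_pow, FreeGroup.lift_apply_of, chiGen]
    rw [← ofAdd_nsmul]
    simp
  · simp [chiGen]

/-- the homomorphism to the cyclic group -/
def chi : VRaag Γ φ m →* Multiplicative (ZMod m) := PresentedGroup.toGroup chi_rels

theorem chi_ev (W : List ((V ⊕ Unit) × Bool)) :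
    chi (ev Γ φ m W) = Multiplicative.ofAdd ((texp W : ℤ) : ZMod m) := by
  have hv : ∀ v, chi (gv Γ φ m v) = 1 := fun v => PresentedGroup.toGroup.of _
  have ht : chi (tt Γ φ m) = Multiplicative.ofAdd 1 := PresentedGroup.toGroup.of _
  induction W with
  | nil => simp [texp]
  | cons x W ih =>
    obtain ⟨v | u, b⟩ := x
    · rw [ev_cons, map_mul, ih, texp]
      cases b
      · rw [ev_v_false, map_inv, hv]; simp
      · rw [ev_v_true, hv]; simp
    · rw [ev_cons, map_mul, ih, texp]
      cases b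
      · rw [ev_t_false, map_inv, ht, ← ofAdd_neg, ← ofAdd_add]
        simp
      · rw [ev_t_true, ht, ← ofAdd_add]
        simp

theorem texp_eq_of_conj {W W' : List ((V ⊕ Unit) × Bool)}
    (h : IsConj (ev Γ φ m W) (ev Γ φ m W')) :
    ((texp W : ℤ) : ZMod m) = ((texp W' : ℤ) : ZMod m) := by
  rw [isConj_iff] at h
  obtain ⟨c, hc⟩ := h
  have := congrArg (chi (Γ := Γ) (φ := φ) (m := m)) hc
  rw [map_mul, map_mul, map_inv, mul_comm, inv_mul_cancel_left, chi_ev, chi_ev] at this
  exact Multiplicative.ofAdd.injective this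

/-! ### Shortening -/

theorem vpart_emb_tw (w : List (V × Bool)) (e : List Bool) :
    (emb w ++ tw e).length = w.length + e.length := by
  simp [emb, tw]

theorem ev_emb_tw (w : List (V × Bool)) (e : List Bool) :
    ev Γ φ m (emb w ++ tw e) = evV Γ φ m w * tt Γ φ m ^ tsum e := by
  rw [ev_append, ev_tw]; rfl

theorem FA_remove {z x : V × Bool} {c d : List (V × Bool)} (h : FA Γ z (c ++ x :: d))
    (hne : z ≠ x) : FA Γ z (c ++ d) := by
  rw [FA_append, FA_cons] at h
  rw [FA_append]
  rcases h with h | ⟨h1, h2 | h2⟩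
  · exact Or.inl h
  · exact absurd h2 hne
  · exact Or.inr ⟨h1, h2.2⟩

theorem defect_shorten {j : ℤ} (hφ : Pres Γ φ) {w : List (V × Bool)}
    (hd : Defect Γ (φ ^ (-j)) w) : ∃ w', w'.length < w.length ∧
      IsConj (evV Γ φ m w * tt Γ φ m ^ j) (evV Γ φ m w' * tt Γ φ m ^ j) := by
  obtain ⟨i, hi, x, ⟨c, d, rfl, hcd⟩, hcomm, hF⟩ := hd
  set ψ := φ ^ (-j) with hψdef
  have hψ : Pres Γ ψ := hφ.zpow _
  set T := tt Γ φ m ^ j with hT
  set A := evV Γ φ m (c ++ d) with hA
  -- the word is A * x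
  have hw : evV Γ φ m (c ++ x :: d) = A * evV Γ φ m [x] := by
    rw [evV_append, evV_cons x d, evV_comm_word hcd, hA, evV_append, mul_assoc]
  have hstep : ∀ y : V × Bool, evV Γ φ m [y] * T = T * evV Γ φ m [rel ψ⁻¹ y] := by
    intro y
    have := t_zpow_evV (Γ := Γ) (φ := φ) (m := m) j [rel ψ⁻¹ y]
    rw [← hψdef, ← hT] at this
    rw [this]
    have e : relw ψ [rel ψ⁻¹ y] = [y] := by
      rw [relw, List.map_cons, ← rel_mul, mul_inv_cancel, rel_one]; rfl
    rw [e]
  have hconj : ∀ l, 1 ≤ l → l ≤ i →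
      IsConj (evV Γ φ m (c ++ x :: d) * T) (evV Γ φ m [rel (ψ ^ l)⁻¹ x] * A * T) := by
    intro l hl1 hli
    induction l with
    | zero => omega
    | succ l ih =>
      by_cases hl0 : l = 0
      · subst hl0
        rw [isConj_iff]
        refine ⟨evV Γ φ m [rel (ψ ^ 1)⁻¹ x], ?_⟩
        rw [hw, mul_assoc A, hstep x, zero_add, pow_one]
        group
      · refine (ih (by omega) (by omega)).trans ?_
        have hcA : evV Γ φ m [rel (ψ ^ l)⁻¹ x] * A = A * evV Γ φ m [rel (ψ ^ l)⁻¹ x] := by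
          refine evV_comm_word fun y hy => ?_
          have hy2 : y ∈ c ++ x :: d := by
            rcases List.mem_append.mp hy with h | h
            · exact List.mem_append_left _ h
            · exact List.mem_append_right _ (List.mem_cons_of_mem _ h)
          have := hcomm l (by omega) (by omega) y hy2
          have h2 := (hψ.pow l).inv _ _ |>.mpr this
          simpa [rel] using h2
        rw [hcA, mul_assoc A, hstep, ← rel_mul, ← mul_inv_rev, ← pow_succ, isConj_iff]
        refine ⟨evV Γ φ m [rel (ψ ^ (l + 1))⁻¹ x], ?_⟩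
        group
  have h1 := hconj i hi le_rfl
  have hne : rel (ψ ^ i)⁻¹ (inv x) ≠ x := by
    intro h
    have := congrArg Prod.snd h
    simp [rel, inv] at this
  obtain ⟨a, b, hab, ha⟩ := FA_remove hF hne
  refine ⟨a ++ b, ?_, ?_⟩
  · have h2 := congrArg List.length hab
    simp only [List.length_append, List.length_cons] at h2 ⊢
    omega
  · have h3 : A = evV Γ φ m [rel (ψ ^ i)⁻¹ (inv x)] * evV Γ φ m (a ++ b) := by
      rw [hA, hab, evV_append, evV_cons (rel (ψ ^ i)⁻¹ (inv x)) b, ← mul_assoc,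
        ← evV_comm_word ha, mul_assoc, evV_append]
    rw [h3, rel_inv, evV_inv, mul_inv_cancel_left] at h1
    exact h1

/-- The minimality predicate: no conjugate has a shorter word. -/
def Minimal (Γ : SimpleGraph V) (φ : Equiv.Perm V) (m : ℕ) (W : List ((V ⊕ Unit) × Bool)) :
    Prop := ∀ W', IsConj (ev Γ φ m W) (ev Γ φ m W') → W.length ≤ W'.length

theorem minimal_iff [DecidableEq V] (hφ : Pres Γ φ) (hm : φ ^ m = 1) (hm0 : 0 < m)
    (W : List ((V ⊕ Unit) × Bool)) : Minimal Γ φ m W ↔
      tcount W = tcost m ((texp W : ℤ) : ZMod m) ∧ Red Γ (vpart φ W) ∧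
        ¬ Defect Γ (φ ^ (-texp W)) (vpart φ W) := by
  constructor
  · intro h
    obtain ⟨e, he1, he2⟩ := exists_tcost hm0 ((texp W : ℤ) : ZMod m)
    have hte := tt_zpow_eq (Γ := Γ) (φ := φ) he2
    have key : ∀ w', IsConj (ev Γ φ m W) (evV Γ φ m w' * tt Γ φ m ^ texp W) →
        W.length ≤ w'.length + e.length := by
      intro w' hw'
      have := h (emb w' ++ tw e) (by rw [ev_emb_tw, hte]; exact hw')
      rwa [vpart_emb_tw] at this
    have h0 : tcount W = tcost m ((texp W : ℤ) : ZMod m) := by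
      have h1 := key (vpart φ W) (by rw [ev_eq W])
      rw [length_eq (φ := φ) W, he1] at h1
      have h2 := tcost_le_tcount (m := m) W
      omega
    have key2 : ∀ w', IsConj (ev Γ φ m W) (evV Γ φ m w' * tt Γ φ m ^ texp W) →
        (vpart φ W).length ≤ w'.length := by
      intro w' hw'
      have := key w' hw'
      rw [length_eq (φ := φ) W, he1, h0] at this
      omega
    refine ⟨h0, ?_, ?_⟩
    · intro a b x hx
      have h1 : evV Γ φ m (vpart φ W) = evV Γ φ m (a ++ b) := by
        rw [evV_eqv hx, evV_append, evV_cons x, evV_cons (inv x), evV_inv,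
          mul_inv_cancel_left, evV_append]
      have h2 := key2 (a ++ b) (by rw [ev_eq W, h1])
      have h3 := hx.length
      simp only [List.length_append, List.length_cons] at h2 h3
      omega
    · intro hd
      obtain ⟨w', hlt, hc⟩ := defect_shorten (m := m) hφ hd
      have := key2 w' (by rw [ev_eq W]; exact hc)
      omega
  · rintro ⟨h0, hr, hd⟩ W' hc
    rw [length_eq (φ := φ) W, length_eq (φ := φ) W']
    have h1 := vpart_le hφ hm hr hd hc
    have h2 := tcost_le_tcount (m := m) W'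
    rw [← texp_eq_of_conj hc, ← h0] at h2
    omega

end Pool.Agent.X238.Vraag
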