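import Pool.Agent.X238.Vraag.Act

/-!
# The virtual right-angled Artin group of a graph automorphism
-/

namespace Pool.Agent.X238.Vraag

variable {V : Type}

/-- The relators of `A_φ = ⟨V, t | uv = vu ({u,v} an edge), t^m = 1, t⁻¹ v t = φ(v)⟩`. The
generator `t` is `Sum.inr ()`. -/
def rels (Γ : SimpleGraph V) (φ : Equiv.Perm V) (m : ℕ) : Set (FreeGroup (V ⊕ Unit)) :=
  {r | ∃ u v, Γ.Adj u v ∧ r = FreeGroup.of (Sum.inl u) * FreeGroup.of (Sum.inl v) * (FreeGroup.of (Sum.inl u))⁻¹ *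
      (FreeGroup.of (Sum.inl v))⁻¹} ∪
  {r | r = FreeGroup.of (Sum.inr ()) ^ m} ∪
  {r | ∃ v, r = (FreeGroup.of (Sum.inr ()))⁻¹ * FreeGroup.of (Sum.inl v) * FreeGroup.of (Sum.inr ()) *
      (FreeGroup.of (Sum.inl (φ v)))⁻¹}

/-- The virtual right-angled Artin group `A_φ`. -/
abbrev VRaag (Γ : SimpleGraph V) (φ : Equiv.Perm V) (m : ℕ) : Type :=
  PresentedGroup (rels Γ φ m)

variable (Γ : SimpleGraph V) (φ : Equiv.Perm V) (m : ℕ)

/-- evaluation of a word -/
def ev (W : List ((V ⊕ Unit) × Bool)) : VRaag Γ φ m :=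
  PresentedGroup.mk (rels Γ φ m) (FreeGroup.mk W)

variable {Γ φ m}

theorem ev_append (W W' : List ((V ⊕ Unit) × Bool)) :
    ev Γ φ m (W ++ W') = ev Γ φ m W * ev Γ φ m W' := by
  rw [ev, ev, ev, ← map_mul, FreeGroup.mul_mk]

theorem ev_cons (x : (V ⊕ Unit) × Bool) (W : List ((V ⊕ Unit) × Bool)) :
    ev Γ φ m (x :: W) = ev Γ φ m [x] * ev Γ φ m W := by
  rw [← ev_append]; rfl

@[simp] theorem ev_nil : ev Γ φ m [] = 1 := by
  rw [ev]
  exact map_one _

theorem ev_surjective (g : VRaag Γ φ m) : ∃ W, ev Γ φ m W = g := by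
  classical
  obtain ⟨x, rfl⟩ := PresentedGroup.mk_surjective _ g
  exact ⟨x.toWord, by rw [ev, FreeGroup.mk_toWord]⟩

/-- word over the vertices, as a word of the group -/
def emb (w : List (V × Bool)) : List ((V ⊕ Unit) × Bool) := w.map fun x => (Sum.inl x.1, x.2)

variable (Γ φ m) in
/-- evaluation of a word over the vertices -/
def evV (w : List (V × Bool)) : VRaag Γ φ m := ev Γ φ m (emb w)

theorem evV_append (w w' : List (V × Bool)) :
    evV Γ φ m (w ++ w') = evV Γ φ m w * evV Γ φ m w' := by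
  rw [evV, evV, evV, ← ev_append, emb, emb, emb, List.map_append]

theorem evV_cons (x : V × Bool) (w : List (V × Bool)) :
    evV Γ φ m (x :: w) = evV Γ φ m [x] * evV Γ φ m w := by
  rw [← evV_append]; rfl

@[simp] theorem evV_nil : evV Γ φ m [] = 1 := ev_nil

variable (Γ φ m) in
/-- the generator `t` -/
def tt : VRaag Γ φ m := PresentedGroup.of (Sum.inr ())

variable (Γ φ m) in
/-- the generator of a vertex -/
def gv (v : V) : VRaag Γ φ m := PresentedGroup.of (Sum.inl v)

theorem ev_v_true (v : V) : ev Γ φ m [(Sum.inl v, true)] = gv Γ φ m v := rfl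

theorem ev_v_false (v : V) : ev Γ φ m [(Sum.inl v, false)] = (gv Γ φ m v)⁻¹ := by
  rw [ev, gv, PresentedGroup.of, ← map_inv]
  rfl

theorem ev_t_true (u : Unit) : ev Γ φ m [(Sum.inr u, true)] = tt Γ φ m := rfl

theorem ev_t_false (u : Unit) : ev Γ φ m [(Sum.inr u, false)] = (tt Γ φ m)⁻¹ := by
  rw [ev, tt, PresentedGroup.of, ← map_inv]
  rfl

theorem evV_true (v : V) : evV Γ φ m [(v, true)] = gv Γ φ m v := rfl

theorem evV_false (v : V) : evV Γ φ m [(v, false)] = (gv Γ φ m v)⁻¹ := ev_v_false v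

theorem evV_inv (x : V × Bool) : evV Γ φ m [inv x] = (evV Γ φ m [x])⁻¹ := by
  obtain ⟨v, b⟩ := x
  cases b
  · rw [evV_false, _root_.inv_inv]; rfl
  · exact evV_false v

theorem gv_comm {u v : V} (h : Γ.Adj u v) :
    gv Γ φ m u * gv Γ φ m v = gv Γ φ m v * gv Γ φ m u := by
  have : PresentedGroup.mk (rels Γ φ m) (FreeGroup.of (Sum.inl u) * FreeGroup.of (Sum.inl v) *
      (FreeGroup.of (Sum.inl u))⁻¹ * (FreeGroup.of (Sum.inl v))⁻¹) = 1 :=
    PresentedGroup.one_of_mem (Or.inl (Or.inl ⟨u, v, h, rfl⟩))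
  rw [map_mul, map_mul, map_mul, map_inv, map_inv] at this
  have h2 : gv Γ φ m u * gv Γ φ m v * (gv Γ φ m u)⁻¹ * (gv Γ φ m v)⁻¹ = 1 := this
  rw [mul_inv_eq_one, mul_inv_eq_iff_eq_mul] at h2
  exact h2

theorem tt_pow : tt Γ φ m ^ m = 1 := by
  have : PresentedGroup.mk (rels Γ φ m) (FreeGroup.of (Sum.inr ()) ^ m) = 1 :=
    PresentedGroup.one_of_mem (Or.inl (Or.inr rfl))
  rw [map_pow] at this
  exact this

theorem tt_conj (v : V) : gv Γ φ m v * tt Γ φ m = tt Γ φ m * gv Γ φ m (φ v) := by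
  have : PresentedGroup.mk (rels Γ φ m) ((FreeGroup.of (Sum.inr ()))⁻¹ * FreeGroup.of (Sum.inl v) *
      FreeGroup.of (Sum.inr ()) * (FreeGroup.of (Sum.inl (φ v)))⁻¹) = 1 :=
    PresentedGroup.one_of_mem (Or.inr ⟨v, rfl⟩)
  rw [map_mul, map_mul, map_mul, map_inv, map_inv] at this
  have h2 : (tt Γ φ m)⁻¹ * gv Γ φ m v * tt Γ φ m * (gv Γ φ m (φ v))⁻¹ = 1 := this
  rw [mul_inv_eq_one, mul_assoc, inv_mul_eq_iff_eq_mul] at h2
  exact h2

theorem evV_comm {x y : V × Bool} (h : Γ.Adj x.1 y.1) :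
    evV Γ φ m [x] * evV Γ φ m [y] = evV Γ φ m [y] * evV Γ φ m [x] := by
  have h1 : Commute (gv Γ φ m x.1) (gv Γ φ m y.1) := gv_comm h
  obtain ⟨u, b⟩ := x
  obtain ⟨v, c⟩ := y
  cases b <;> cases c
  · rw [evV_false, evV_false]; exact h1.inv_inv
  · rw [evV_false, evV_true]; exact h1.inv_left
  · rw [evV_true, evV_false]; exact h1.inv_right
  · rw [evV_true, evV_true]; exact h1

theorem evV_comm_word {x : V × Bool} {a : List (V × Bool)} (h : ∀ y ∈ a, Γ.Adj x.1 y.1) :
    evV Γ φ m [x] * evV Γ φ m a = evV Γ φ m a * evV Γ φ m [x] := by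
  induction a with
  | nil => simp
  | cons y a ih =>
    rw [evV_cons y a, ← mul_assoc, evV_comm (h y List.mem_cons_self), mul_assoc,
      ih (fun z hz => h z (List.mem_cons_of_mem _ hz)), mul_assoc]

/-- words equal modulo commutation have the same value -/
theorem evV_eqv [DecidableEq V] {w w' : List (V × Bool)} (h : Eqv Γ w w') :
    evV Γ φ m w = evV Γ φ m w' := by
  induction w generalizing w' with
  | nil =>
    have := h.length
    rw [List.length_nil, eq_comm, List.length_eq_zero_iff] at this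
    rw [this]
  | cons x w ih =>
    have h1 : FA Γ x w' := FA_iff.mpr ⟨w, h.symm⟩
    obtain ⟨a, b, rfl, ha⟩ := h1
    have h2 : Eqv Γ w (a ++ b) := (h.trans (comm_front ha)).cancel
    rw [evV_cons, ih h2, evV_append, evV_append, evV_cons x b, ← mul_assoc,
      evV_comm_word ha, mul_assoc]

theorem evV_relw_t (w : List (V × Bool)) :
    evV Γ φ m w * tt Γ φ m = tt Γ φ m * evV Γ φ m (relw φ w) := by
  induction w with
  | nil => simp [relw]
  | cons x w ih =>
    have h1 : evV Γ φ m [x] * tt Γ φ m = tt Γ φ m * evV Γ φ m [rel φ x] := by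
      obtain ⟨v, b⟩ := x
      cases b
      · have := tt_conj (Γ := Γ) (φ := φ) (m := m) v
        rw [evV_false, rel, evV_false, inv_mul_eq_iff_eq_mul, ← mul_assoc, this, mul_assoc,
          mul_inv_cancel, mul_one]
      · exact tt_conj v
    rw [evV_cons, relw_cons, evV_cons (rel φ x), mul_assoc, ih, ← mul_assoc, h1, mul_assoc]

theorem t_evV (w : List (V × Bool)) :
    tt Γ φ m * evV Γ φ m w = evV Γ φ m (relw φ⁻¹ w) * tt Γ φ m := by
  rw [evV_relw_t, ← relw_mul, mul_inv_cancel, relw_one]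

theorem t_zpow_evV (j : ℤ) (w : List (V × Bool)) :
    tt Γ φ m ^ j * evV Γ φ m w = evV Γ φ m (relw (φ ^ (-j)) w) * tt Γ φ m ^ j := by
  have hp : ∀ (n : ℕ) (w : List (V × Bool)),
      tt Γ φ m ^ n * evV Γ φ m w = evV Γ φ m (relw ((φ⁻¹) ^ n) w) * tt Γ φ m ^ n := by
    intro n
    induction n with
    | zero => intro w; simp
    | succ n ih =>
      intro w
      rw [pow_succ, mul_assoc, t_evV, ← mul_assoc, ih, ← relw_mul, ← pow_succ, mul_assoc,
        ← pow_succ]
  have hm : ∀ (n : ℕ) (w : List (V × Bool)),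
      (tt Γ φ m ^ n)⁻¹ * evV Γ φ m w = evV Γ φ m (relw (φ ^ n) w) * (tt Γ φ m ^ n)⁻¹ := by
    intro n w
    rw [inv_mul_eq_iff_eq_mul, ← mul_assoc, hp, ← relw_mul, inv_pow, inv_mul_cancel, relw_one,
      mul_assoc, mul_inv_cancel, mul_one]
  obtain ⟨n, rfl | rfl⟩ := j.eq_nat_or_neg
  · rw [zpow_natCast, hp, zpow_neg, zpow_natCast, inv_pow]
  · rw [zpow_neg, zpow_natCast, hm, neg_neg, zpow_natCast]

/-! ### Normal forms of words -/

variable (φ) in
/-- the vertex part of a word: all powers of `t` are moved to the end -/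
def vpart : List ((V ⊕ Unit) × Bool) → List (V × Bool)
  | [] => []
  | (Sum.inl v, b) :: W => (v, b) :: vpart W
  | (Sum.inr _, b) :: W => relw (if b then φ⁻¹ else φ) (vpart W)

/-- the exponent of `t` -/
def texp : List ((V ⊕ Unit) × Bool) → ℤ
  | [] => 0
  | (Sum.inl _, _) :: W => texp W
  | (Sum.inr _, b) :: W => (if b then 1 else -1) + texp W

/-- the number of letters `t`, `t⁻¹` -/
def tcount : List ((V ⊕ Unit) × Bool) → ℕ
  | [] => 0
  | (Sum.inl _, _) :: W => tcount W
  | (Sum.inr _, _) :: W => tcount W + 1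

theorem length_eq (W : List ((V ⊕ Unit) × Bool)) :
    W.length = (vpart φ W).length + tcount W := by
  induction W with
  | nil => rfl
  | cons x W ih =>
    obtain ⟨v | u, b⟩ := x
    · rw [vpart, tcount, List.length_cons, List.length_cons, ih]; omega
    · rw [vpart, tcount, List.length_cons, length_relw, ih]; omega

theorem ev_eq (W : List ((V ⊕ Unit) × Bool)) :
    ev Γ φ m W = evV Γ φ m (vpart φ W) * tt Γ φ m ^ texp W := by
  induction W with
  | nil => simp [vpart, texp]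
  | cons x W ih =>
    obtain ⟨v | u, b⟩ := x
    · rw [ev_cons, vpart, texp, evV_cons, ih, ← mul_assoc]
      rfl
    · rw [ev_cons, vpart, texp, ih, zpow_add, ← mul_assoc, ← mul_assoc]
      congr 1
      cases b
      · have := t_zpow_evV (Γ := Γ) (φ := φ) (m := m) (-1) (vpart φ W)
        simpa [ev_t_false] using this
      · have := t_zpow_evV (Γ := Γ) (φ := φ) (m := m) 1 (vpart φ W)
        simpa [ev_t_true] using this

/-- twisted powers of a word -/
def tpow (ψ : Equiv.Perm V) (w : List (V × Bool)) : ℕ → List (V × Bool)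
  | 0 => []
  | k + 1 => w ++ relw ψ (tpow ψ w k)

theorem length_tpow (ψ : Equiv.Perm V) (w : List (V × Bool)) (k : ℕ) :
    (tpow ψ w k).length = k * w.length := by
  induction k with
  | zero => simp [tpow]
  | succ k ih => rw [tpow, List.length_append, length_relw, ih]; ring

theorem pow_eq (w : List (V × Bool)) (j : ℤ) (k : ℕ) :
    (evV Γ φ m w * tt Γ φ m ^ j) ^ k =
      evV Γ φ m (tpow (φ ^ (-j)) w k) * tt Γ φ m ^ (j * k) := by
  induction k with
  | zero => simp [tpow]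
  | succ k ih =>
    rw [pow_succ', ih, tpow, evV_append]
    have h := t_zpow_evV (Γ := Γ) (φ := φ) (m := m) j (tpow (φ ^ (-j)) w k)
    calc evV Γ φ m w * tt Γ φ m ^ j * (evV Γ φ m (tpow (φ ^ (-j)) w k) * tt Γ φ m ^ (j * k))
        = evV Γ φ m w * (tt Γ φ m ^ j * evV Γ φ m (tpow (φ ^ (-j)) w k)) *
          tt Γ φ m ^ (j * k) := by group
      _ = evV Γ φ m w * (evV Γ φ m (relw (φ ^ (-j)) (tpow (φ ^ (-j)) w k)) * tt Γ φ m ^ j) *
          tt Γ φ m ^ (j * k) := by rw [h]
      _ = _ := by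
        rw [mul_assoc, mul_assoc, mul_assoc, ← zpow_add]
        congr 3
        push_cast
        ring

/-! ### The action -/

variable [DecidableEq V]

/-- the action on generators -/
noncomputable def actGen (hφ : Pres Γ φ) : V ⊕ Unit → Equiv.Perm (Q Γ)
  | Sum.inl v => perm Γ (v, true)
  | Sum.inr _ => permA hφ.inv

theorem act_rels (hφ : Pres Γ φ) (hm : φ ^ m = 1) :
    ∀ r ∈ rels Γ φ m, FreeGroup.lift (actGen hφ) r = 1 := by
  rintro r ((⟨u, v, huv, rfl⟩ | rfl) | ⟨v, rfl⟩)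
  · simp only [map_mul, map_inv, FreeGroup.lift_apply_of, actGen]
    rw [mul_inv_eq_one, mul_inv_eq_iff_eq_mul]
    exact perm_comm huv
  · simp only [map_pow, FreeGroup.lift_apply_of, actGen]
    rw [permA_pow]
    ext q
    induction q using Quotient.inductionOn' with
    | _ w =>
      refine cls_eq (hw := w.2.relw (hφ.inv.pow m)) ?_
      rw [inv_pow, hm, inv_one, relw_one]
      exact Eqv.refl _
  · simp only [map_mul, map_inv, FreeGroup.lift_apply_of, actGen]
    rw [mul_inv_eq_one, mul_assoc, inv_mul_eq_iff_eq_mul]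
    have := permA_conj (Γ := Γ) hφ.inv (φ v, true)
    have e : φ⁻¹ (φ v) = v := φ.symm_apply_apply v
    rw [rel, e] at this
    exact this.symm

/-- the action of the group on reduced words modulo commutation -/
noncomputable def act (hφ : Pres Γ φ) (hm : φ ^ m = 1) : VRaag Γ φ m →* Equiv.Perm (Q Γ) :=
  PresentedGroup.toGroup (act_rels hφ hm)

theorem act_gv (hφ : Pres Γ φ) (hm : φ ^ m = 1) (v : V) :
    act hφ hm (gv Γ φ m v) = perm Γ (v, true) :=
  PresentedGroup.toGroup.of _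

theorem act_tt (hφ : Pres Γ φ) (hm : φ ^ m = 1) :
    act hφ hm (tt Γ φ m) = permA hφ.inv :=
  PresentedGroup.toGroup.of _

theorem act_letter (hφ : Pres Γ φ) (hm : φ ^ m = 1) (x : V × Bool) :
    act hφ hm (evV Γ φ m [x]) = perm Γ x := by
  obtain ⟨v, b⟩ := x
  cases b
  · rw [evV_false, map_inv, act_gv, perm_inv]; rfl
  · rw [evV_true, act_gv]

/-- the base point -/
def e0 : Q Γ := cls Red_nil

theorem act_red (hφ : Pres Γ φ) (hm : φ ^ m = 1) {w : List (V × Bool)} (hw : Red Γ w) :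
    act hφ hm (evV Γ φ m w) e0 = cls hw := by
  induction w with
  | nil => rw [evV_nil, map_one]; rfl
  | cons x w ih =>
    have h := Red_cons.mp hw
    rw [evV_cons, map_mul, Equiv.Perm.mul_apply, ih h.1, act_letter, perm_apply]
    refine cls_eq ?_
    rw [push_of_not h.2]
    exact Eqv.refl _

theorem act_tt_e0 (hφ : Pres Γ φ) (hm : φ ^ m = 1) (j : ℤ) :
    act hφ hm (tt Γ φ m ^ j) e0 = e0 := by
  rw [map_zpow, act_tt]
  have h : permA hφ.inv (e0 : Q Γ) = e0 := rfl
  exact Function.IsFixedPt.perm_zpow h j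

theorem qlen_act (hφ : Pres Γ φ) (hm : φ ^ m = 1) (W : List ((V ⊕ Unit) × Bool)) (q : Q Γ) :
    qlen (act hφ hm (ev Γ φ m W) q) ≤ (vpart φ W).length + qlen q := by
  induction W with
  | nil => rw [ev_nil, map_one]; simp
  | cons x W ih =>
    obtain ⟨v | u, b⟩ := x
    · rw [ev_cons, map_mul, Equiv.Perm.mul_apply, vpart, List.length_cons]
      have h1 : act hφ hm (ev Γ φ m [(Sum.inl v, b)]) = perm Γ (v, b) := act_letter hφ hm (v, b)
      rw [h1]
      have := qlen_perm (v, b) (act hφ hm (ev Γ φ m W) q)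
      omega
    · rw [ev_cons, map_mul, Equiv.Perm.mul_apply, vpart, length_relw]
      have h1 : ∀ q, qlen (act hφ hm (ev Γ φ m [(Sum.inr u, b)]) q) = qlen q := by
        intro q
        cases b
        · rw [ev_t_false, map_inv, act_tt, permA_inv]
          exact qlen_permA _ q
        · rw [ev_t_true, act_tt]
          exact qlen_permA _ q
      rw [h1]
      exact ih

end Pool.Agent.X238.Vraag
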