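import Pool.Agent.X238.Vraag.Conj

/-!
# Regularity
-/

namespace Pool.Agent.X238.Vraag

/-- A language is regular if membership is determined by a summary with finitely many values
that can be updated when a letter is added in front. -/
theorem regular_of_summary {α S : Type} [Finite S] (f : List α → S)
    (hf : ∀ x W W', f W = f W' → f (x :: W) = f (x :: W')) (L : Language α)
    (hL : ∀ W W', f W = f W' → (W ∈ L ↔ W' ∈ L)) : L.IsRegular := by
  classical
  rw [← Language.isRegular_reverse_iff]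
  let M : DFA α S :=
    { step := fun s x => if h : ∃ W, f W = s then f (x :: h.choose) else s
      start := f []
      accept := {s | ∃ W ∈ L, f W = s} }
  have hstep : ∀ W x, M.step (f W) x = f (x :: W) := by
    intro W x
    have h : ∃ W', f W' = f W := ⟨W, rfl⟩
    show (if h : ∃ W', f W' = f W then f (x :: h.choose) else f W) = _
    rw [dif_pos h]
    exact hf x _ _ h.choose_spec
  have heval : ∀ w : List α, M.eval w = f w.reverse := by
    intro w
    induction w using List.reverseRecOn with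
    | nil => rfl
    | append_singleton w x ih =>
      rw [DFA.eval_append_singleton, ih, hstep, List.reverse_append]
      rfl
  refine ⟨S, Fintype.ofFinite S, M, ?_⟩
  ext w
  rw [DFA.mem_accepts, heval, Language.mem_reverse]
  constructor
  · rintro ⟨W, hW, he⟩
    exact (hL _ _ he).mp hW
  · intro h
    exact ⟨_, h, rfl⟩

variable {V : Type} [DecidableEq V] {Γ : SimpleGraph V} {φ : Equiv.Perm V} {m : ℕ}

/-- the summary of a word -/
def summ (Γ : SimpleGraph V) (φ : Equiv.Perm V) (m : ℕ) (W : List ((V ⊕ Unit) × Bool)) :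
    Prop × Set (V × Bool) × Set (V × Bool) × Set V × ZMod m × Equiv.Perm V × Fin (m + 2) :=
  (Red Γ (vpart φ W), {x | FA Γ x (vpart φ W)}, {x | LA Γ x (vpart φ W)},
    {v | ∃ y ∈ vpart φ W, y.1 = v}, ((texp W : ℤ) : ZMod m), φ ^ texp W,
    ⟨min (tcount W) (m + 1), by omega⟩)

/-- equality of summaries, spelled out -/
structure Sim (Γ : SimpleGraph V) (φ : Equiv.Perm V) (m : ℕ)
    (W W' : List ((V ⊕ Unit) × Bool)) : Prop where
  red : Red Γ (vpart φ W) ↔ Red Γ (vpart φ W')
  fa : ∀ x, FA Γ x (vpart φ W) ↔ FA Γ x (vpart φ W')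
  la : ∀ x, LA Γ x (vpart φ W) ↔ LA Γ x (vpart φ W')
  supp : ∀ v, (∃ y ∈ vpart φ W, y.1 = v) ↔ (∃ y ∈ vpart φ W', y.1 = v)
  exp : ((texp W : ℤ) : ZMod m) = ((texp W' : ℤ) : ZMod m)
  pow : φ ^ texp W = φ ^ texp W'
  cnt : min (tcount W) (m + 1) = min (tcount W') (m + 1)

theorem sim_iff {W W' : List ((V ⊕ Unit) × Bool)} :
    summ Γ φ m W = summ Γ φ m W' ↔ Sim Γ φ m W W' := by
  constructor
  · intro h
    simp only [summ, Prod.mk.injEq, Fin.mk.injEq] at h
    obtain ⟨h1, h2, h3, h4, h5, h6, h7⟩ := h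
    exact ⟨h1 ▸ Iff.rfl, fun x => Set.ext_iff.mp h2 x, fun x => Set.ext_iff.mp h3 x,
      fun x => Set.ext_iff.mp h4 x, h5, h6, h7⟩
  · intro h
    simp only [summ, Prod.mk.injEq, Fin.mk.injEq]
    exact ⟨propext h.red, Set.ext h.fa, Set.ext h.la, Set.ext h.supp, h.exp, h.pow, h.cnt⟩

omit [DecidableEq V] in
theorem all_supp {w : List (V × Bool)} (P : V → Prop) :
    (∀ z ∈ w, P z.1) ↔ ∀ v, (∃ y ∈ w, y.1 = v) → P v := by
  constructor
  · rintro h v ⟨y, hy, rfl⟩
    exact h y hy
  · intro h z hz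
    exact h z.1 ⟨z, hz, rfl⟩

theorem Sim.all {W W' : List ((V ⊕ Unit) × Bool)} (h : Sim Γ φ m W W') (P : V → Prop) :
    (∀ z ∈ vpart φ W, P z.1) ↔ ∀ z ∈ vpart φ W', P z.1 := by
  rw [all_supp, all_supp]
  exact forall_congr' fun v => imp_congr_left (h.supp v)

omit [DecidableEq V] in
theorem supp_relw (ψ : Equiv.Perm V) (w : List (V × Bool)) (v : V) :
    (∃ y ∈ relw ψ w, y.1 = v) ↔ ∃ y ∈ w, y.1 = ψ⁻¹ v := by
  constructor
  · rintro ⟨y, hy, rfl⟩
    obtain ⟨z, hz, rfl⟩ := List.mem_map.mp hy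
    exact ⟨z, hz, (ψ.symm_apply_apply z.1).symm⟩
  · rintro ⟨y, hy, hv⟩
    refine ⟨rel ψ y, List.mem_map.mpr ⟨y, hy, rfl⟩, ?_⟩
    rw [rel, hv]
    exact ψ.apply_symm_apply v

theorem Sim.cons (hφ : Pres Γ φ) {W W' : List ((V ⊕ Unit) × Bool)} (h : Sim Γ φ m W W')
    (x : (V ⊕ Unit) × Bool) : Sim Γ φ m (x :: W) (x :: W') := by
  obtain ⟨v | u, b⟩ := x
  · refine ⟨?_, fun x => ?_, fun x => ?_, fun u => ?_, h.exp, h.pow, h.cnt⟩
    · rw [vpart, vpart, Red_cons, Red_cons, h.red, h.fa]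
    · rw [vpart, vpart, FA_cons, FA_cons, h.fa]
    · rw [vpart, vpart, LA_cons, LA_cons, h.la, h.all (fun v => Γ.Adj x.1 v)]
    · rw [vpart, vpart]
      simp only [List.mem_cons, exists_eq_or_imp]
      rw [h.supp]
  · have hψ : Pres Γ (if b then φ⁻¹ else φ) := by cases b; exacts [hφ, hφ.inv]
    refine ⟨?_, fun x => ?_, fun x => ?_, fun u => ?_, ?_, ?_, ?_⟩
    · rw [vpart, vpart, Red_relw hψ, Red_relw hψ, h.red]
    · rw [vpart, vpart, FA_relw hψ, FA_relw hψ, h.fa]
    · rw [vpart, vpart, LA_relw hψ, LA_relw hψ, h.la]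
    · rw [vpart, vpart, supp_relw, supp_relw, h.supp]
    · rw [texp, texp, Int.cast_add, Int.cast_add, h.exp]
    · rw [texp, texp, zpow_add, zpow_add, h.pow]
    · rw [tcount, tcount]
      have := h.cnt
      omega

theorem Sim.defect {W W' : List ((V ⊕ Unit) × Bool)} (h : Sim Γ φ m W W') :
    Defect Γ (φ ^ (-texp W)) (vpart φ W) ↔ Defect Γ (φ ^ (-texp W')) (vpart φ W') := by
  have e : φ ^ (-texp W) = φ ^ (-texp W') := by rw [zpow_neg, zpow_neg, h.pow]
  rw [e, Defect, Defect]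
  refine exists_congr fun i => and_congr_right fun _ => exists_congr fun x => ?_
  refine and_congr (h.la x) (and_congr ?_ (h.fa _))
  refine forall_congr' fun l => imp_congr_right fun _ => imp_congr_right fun _ => ?_
  exact h.all (fun v => Γ.Adj x.1 (((φ ^ (-texp W')) ^ l) v))

theorem Sim.minimal (hφ : Pres Γ φ) (hm : φ ^ m = 1) (hm0 : 0 < m)
    {W W' : List ((V ⊕ Unit) × Bool)} (h : Sim Γ φ m W W') :
    Minimal Γ φ m W ↔ Minimal Γ φ m W' := by
  rw [minimal_iff hφ hm hm0, minimal_iff hφ hm hm0, h.red, h.defect, h.exp]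
  refine and_congr_left fun _ => ?_
  have h1 := h.cnt
  have h2 := tcost_le_m hm0 ((texp W' : ℤ) : ZMod m)
  omega

/-! ### The general definition of the conjugacy geodesic language -/

section general

variable {G : Type*} [Group G]

/-- The word length of `g` over `Y`. -/
noncomputable def wordLength (Y : Set G) (g : G) : ℕ :=
  sInf {n | ∃ w : List Y, w.length = n ∧ (w.map Subtype.val).prod = g}

/-- The minimal word length in the conjugacy class of `g`. -/
noncomputable def conjLength (Y : Set G) (g : G) : ℕ :=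
  sInf {n | ∃ h, IsConj g h ∧ wordLength Y h = n}

/-- The language of conjugacy geodesics of `G` over `Y`. -/
def ConjGeo (Y : Set G) : Language Y :=
  {w | w.length = conjLength Y (w.map Subtype.val).prod}

end general

omit [DecidableEq V] in
/-- The standard generating set of `A_φ`: the vertices, `t`, and their inverses. -/
def Xhat (Γ : SimpleGraph V) (φ : Equiv.Perm V) (m : ℕ) : Set (VRaag Γ φ m) :=
  {g | ∃ x : V ⊕ Unit, g = PresentedGroup.of x ∨ g = (PresentedGroup.of x)⁻¹}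

omit [DecidableEq V] in
theorem ev_letter_mem (x : (V ⊕ Unit) × Bool) : ev Γ φ m [x] ∈ Xhat Γ φ m := by
  obtain ⟨v | ⟨⟩, b⟩ := x
  · cases b
    · exact ⟨Sum.inl v, Or.inr (ev_v_false v)⟩
    · exact ⟨Sum.inl v, Or.inl rfl⟩
  · cases b
    · exact ⟨Sum.inr (), Or.inr (ev_t_false ())⟩
    · exact ⟨Sum.inr (), Or.inl rfl⟩

omit [DecidableEq V] in
theorem exists_letter (y : Xhat Γ φ m) : ∃ x, ev Γ φ m [x] = y := by
  obtain ⟨y, x, rfl | rfl⟩ := y
  · exact ⟨(x, true), rfl⟩
  · obtain v | ⟨⟩ := x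
    · exact ⟨(Sum.inl v, false), ev_v_false v⟩
    · exact ⟨(Sum.inr (), false), ev_t_false ()⟩

/-- a letter for each element of the generating set -/
noncomputable def rho (y : Xhat Γ φ m) : (V ⊕ Unit) × Bool := (exists_letter y).choose

omit [DecidableEq V] in
theorem ev_rho (w : List (Xhat Γ φ m)) :
    ev Γ φ m (w.map rho) = (w.map Subtype.val).prod := by
  induction w with
  | nil => simp
  | cons y w ih =>
    rw [List.map_cons, ev_cons, ih, List.map_cons, List.prod_cons]
    congr 1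
    exact (exists_letter y).choose_spec

omit [DecidableEq V] in
theorem exists_word (W : List ((V ⊕ Unit) × Bool)) :
    ∃ w : List (Xhat Γ φ m), w.length = W.length ∧ (w.map Subtype.val).prod = ev Γ φ m W := by
  induction W with
  | nil => exact ⟨[], rfl, by simp⟩
  | cons x W ih =>
    obtain ⟨w, h1, h2⟩ := ih
    refine ⟨⟨ev Γ φ m [x], ev_letter_mem x⟩ :: w, by simp [h1], ?_⟩
    rw [List.map_cons, List.prod_cons, h2]
    exact (ev_cons x W).symm

omit [DecidableEq V] in
theorem wordLength_le (W : List ((V ⊕ Unit) × Bool)) :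
    wordLength (Xhat Γ φ m) (ev Γ φ m W) ≤ W.length := by
  obtain ⟨w, h1, h2⟩ := exists_word (Γ := Γ) (φ := φ) (m := m) W
  exact Nat.sInf_le ⟨w, h1, h2⟩

omit [DecidableEq V] in
theorem mem_conjGeo (w : List (Xhat Γ φ m)) :
    w ∈ ConjGeo (Xhat Γ φ m) ↔ Minimal Γ φ m (w.map rho) := by
  have hle : conjLength (Xhat Γ φ m) (w.map Subtype.val).prod ≤ w.length := by
    have h1 := wordLength_le (Γ := Γ) (φ := φ) (m := m) (w.map rho)
    rw [ev_rho, List.length_map] at h1
    exact le_trans (Nat.sInf_le ⟨_, IsConj.refl _, rfl⟩) h1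
  constructor
  · intro h W' hc
    rw [ev_rho] at hc
    rw [List.length_map]
    have h0 : w.length = conjLength (Xhat Γ φ m) (w.map Subtype.val).prod := h
    rw [h0]
    exact le_trans (Nat.sInf_le ⟨_, hc, rfl⟩) (wordLength_le W')
  · intro h
    refine le_antisymm ?_ hle
    have hne : {n | ∃ h, IsConj (w.map Subtype.val).prod h ∧
        wordLength (Xhat Γ φ m) h = n}.Nonempty := ⟨_, _, IsConj.refl _, rfl⟩
    obtain ⟨g, hg, hgl⟩ := Nat.sInf_mem hne
    have hne2 : {n | ∃ w : List (Xhat Γ φ m), w.length = n ∧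
        (w.map Subtype.val).prod = g}.Nonempty := by
      obtain ⟨W, hW⟩ := ev_surjective g
      obtain ⟨w', h1, h2⟩ := exists_word (Γ := Γ) (φ := φ) (m := m) W
      exact ⟨_, w', rfl, h2.trans hW⟩
    obtain ⟨w', h1, h2⟩ := Nat.sInf_mem hne2
    have h3 := h (w'.map rho) (by rw [ev_rho, ev_rho, h2]; exact hg)
    rw [List.length_map, List.length_map, h1] at h3
    rw [conjLength, ← hgl]
    exact h3

theorem conjGeo_regular [Finite V] (hφ : Pres Γ φ) (hm : φ ^ m = 1) (hm0 : 0 < m) :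
    (ConjGeo (Xhat Γ φ m)).IsRegular := by
  have : NeZero m := ⟨hm0.ne'⟩
  refine regular_of_summary (fun w => summ Γ φ m (w.map rho)) ?_ _ ?_
  · intro x W W' h
    rw [sim_iff] at h
    rw [List.map_cons, List.map_cons, sim_iff]
    exact h.cons hφ _
  · intro W W' h
    rw [sim_iff] at h
    rw [mem_conjGeo, mem_conjGeo]
    exact h.minimal hφ hm hm0

end Pool.Agent.X238.Vraag
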