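import Mathlib

/-!
# Words modulo commutation (projection form), first and last letters, reduced words
-/

namespace Pool.Agent.X238.Vraag

variable {V : Type} [DecidableEq V]

/-- the formal inverse of a letter -/
def inv (x : V × Bool) : V × Bool := (x.1, !x.2)

omit [DecidableEq V] in
@[simp] theorem inv_inv (x : V × Bool) : inv (inv x) = x := by simp [inv]

omit [DecidableEq V] in
@[simp] theorem inv_fst (x : V × Bool) : (inv x).1 = x.1 := rfl

/-- projection of a word to two vertices -/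
def proj (u v : V) (w : List (V × Bool)) : List (V × Bool) :=
  w.filter (fun x => decide (x.1 = u ∨ x.1 = v))

theorem proj_append (u v : V) (a b : List (V × Bool)) :
    proj u v (a ++ b) = proj u v a ++ proj u v b := by
  simp [proj]

theorem proj_cons (u v : V) (x : V × Bool) (b : List (V × Bool)) :
    proj u v (x :: b) = if x.1 = u ∨ x.1 = v then x :: proj u v b else proj u v b := by
  simp [proj, List.filter_cons]

/-- equality modulo commutation of letters at adjacent vertices, via projections -/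
def Eqv (Γ : SimpleGraph V) (w w' : List (V × Bool)) : Prop :=
  ∀ u v, ¬ Γ.Adj u v → proj u v w = proj u v w'

variable {Γ : SimpleGraph V}

theorem Eqv.refl (w : List (V × Bool)) : Eqv Γ w w := fun _ _ _ => rfl

theorem Eqv.symm {w w' : List (V × Bool)} (h : Eqv Γ w w') : Eqv Γ w' w :=
  fun u v huv => (h u v huv).symm

theorem Eqv.trans {w w' w'' : List (V × Bool)} (h : Eqv Γ w w') (h' : Eqv Γ w' w'') :
    Eqv Γ w w'' := fun u v huv => (h u v huv).trans (h' u v huv)

theorem Eqv.append {a a' b b' : List (V × Bool)} (h : Eqv Γ a a') (h' : Eqv Γ b b') :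
    Eqv Γ (a ++ b) (a' ++ b') := fun u v huv => by
  rw [proj_append, proj_append, h u v huv, h' u v huv]

theorem Eqv.cons {w w' : List (V × Bool)} (x : V × Bool) (h : Eqv Γ w w') :
    Eqv Γ (x :: w) (x :: w') := fun u v huv => by
  rw [proj_cons, proj_cons, h u v huv]

theorem Eqv.cancel {w w' : List (V × Bool)} {x : V × Bool} (h : Eqv Γ (x :: w) (x :: w')) :
    Eqv Γ w w' := fun u v huv => by
  have := h u v huv
  rw [proj_cons, proj_cons] at this
  split_ifs at this with hx
  · exact (List.cons.inj this).2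
  · exact this

theorem Eqv.perm {w w' : List (V × Bool)} (h : Eqv Γ w w') : w.Perm w' := by
  rw [List.perm_iff_count]
  intro x
  have h1 := congrArg (List.count x) (h x.1 x.1 (Γ.loopless.irrefl _))
  rw [proj, proj, List.count_filter, List.count_filter] at h1
  · exact h1
  · simp
  · simp

theorem Eqv.length {w w' : List (V × Bool)} (h : Eqv Γ w w') : w.length = w'.length :=
  h.perm.length_eq

theorem comm_front {a b : List (V × Bool)} {x : V × Bool} (h : ∀ y ∈ a, Γ.Adj x.1 y.1) :
    Eqv Γ (a ++ x :: b) (x :: (a ++ b)) := by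
  intro u v huv
  rw [proj_append, proj_cons, proj_cons, proj_append]
  split_ifs with hx
  · have ha : proj u v a = [] := by
      rw [proj, List.filter_eq_nil_iff]
      intro y hy
      have hadj := h y hy
      simp only [decide_eq_true_eq, not_or]
      rcases hx with hx | hx
      · rw [hx] at hadj
        exact ⟨fun e => Γ.loopless.irrefl _ (e ▸ hadj), fun e => huv (e ▸ hadj)⟩
      · rw [hx] at hadj
        exact ⟨fun e => huv ((e ▸ hadj).symm), fun e => Γ.loopless.irrefl _ (e ▸ hadj)⟩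
    rw [ha]; rfl
  · rfl

theorem comm_swap {b : List (V × Bool)} {x y : V × Bool} (h : Γ.Adj x.1 y.1) :
    Eqv Γ (y :: x :: b) (x :: y :: b) :=
  comm_front (a := [y]) (by simpa using h)

/-- `x` can be moved to the front of `w` -/
def FA (Γ : SimpleGraph V) (x : V × Bool) (w : List (V × Bool)) : Prop :=
  ∃ a b, w = a ++ x :: b ∧ ∀ y ∈ a, Γ.Adj x.1 y.1

/-- `x` can be moved to the end of `w` -/
def LA (Γ : SimpleGraph V) (x : V × Bool) (w : List (V × Bool)) : Prop :=
  ∃ a b, w = a ++ x :: b ∧ ∀ y ∈ b, Γ.Adj x.1 y.1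

theorem FA_iff {x : V × Bool} {w : List (V × Bool)} : FA Γ x w ↔ ∃ w', Eqv Γ w (x :: w') := by
  constructor
  · rintro ⟨a, b, rfl, h⟩
    exact ⟨a ++ b, comm_front h⟩
  · rintro ⟨w', h⟩
    have h1 := h x.1 x.1 (Γ.loopless.irrefl _)
    rw [proj_cons, if_pos (Or.inl rfl), proj, List.filter_eq_cons_iff] at h1
    obtain ⟨a, b, hw, ha, -, -⟩ := h1
    refine ⟨a, b, hw, fun y hy => ?_⟩
    by_contra hadj
    have h2 := h x.1 y.1 hadj
    rw [proj_cons, if_pos (Or.inl rfl), hw, proj_append] at h2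
    have hy2 : y ∈ proj x.1 y.1 a := by
      rw [proj, List.mem_filter]
      exact ⟨hy, by simp⟩
    cases hc : proj x.1 y.1 a with
    | nil => rw [hc] at hy2; simp at hy2
    | cons c cs =>
      rw [hc, List.cons_append] at h2
      have hcx : c = x := (List.cons.inj h2).1
      have hca : c ∈ a := by
        have : c ∈ proj x.1 y.1 a := by rw [hc]; simp
        rw [proj, List.mem_filter] at this
        exact this.1
      have := ha c hca
      rw [hcx] at this
      simp at this

omit [DecidableEq V] in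
theorem FA_nil {x : V × Bool} : ¬ FA Γ x [] := by
  rintro ⟨a, b, h, -⟩
  simp at h

omit [DecidableEq V] in
theorem FA_cons {x y : V × Bool} {w : List (V × Bool)} :
    FA Γ x (y :: w) ↔ x = y ∨ (Γ.Adj x.1 y.1 ∧ FA Γ x w) := by
  constructor
  · rintro ⟨a, b, h, ha⟩
    cases a with
    | nil => exact Or.inl (List.cons.inj h).1.symm
    | cons z a =>
      rw [List.cons_append] at h
      obtain ⟨h1, h2⟩ := List.cons.inj h
      refine Or.inr ⟨?_, a, b, h2, fun t ht => ha t (List.mem_cons_of_mem _ ht)⟩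
      rw [h1]; exact ha z List.mem_cons_self
  · rintro (rfl | ⟨h, a, b, rfl, ha⟩)
    · exact ⟨[], w, rfl, by simp⟩
    · refine ⟨y :: a, b, rfl, fun t ht => ?_⟩
      rcases List.mem_cons.mp ht with rfl | ht
      · exact h
      · exact ha t ht

omit [DecidableEq V] in
theorem FA_append {x : V × Bool} {a b : List (V × Bool)} :
    FA Γ x (a ++ b) ↔ FA Γ x a ∨ ((∀ y ∈ a, Γ.Adj x.1 y.1) ∧ FA Γ x b) := by
  induction a with
  | nil => simp [FA_nil]
  | cons z a ih =>
    rw [List.cons_append, FA_cons, FA_cons, ih]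
    simp only [List.mem_cons, forall_eq_or_imp]
    tauto

omit [DecidableEq V] in
theorem LA_nil {x : V × Bool} : ¬ LA Γ x [] := by
  rintro ⟨a, b, h, -⟩
  simp at h

omit [DecidableEq V] in
theorem LA_cons {x y : V × Bool} {w : List (V × Bool)} :
    LA Γ x (y :: w) ↔ LA Γ x w ∨ (x = y ∧ ∀ z ∈ w, Γ.Adj x.1 z.1) := by
  constructor
  · rintro ⟨a, b, h, hb⟩
    cases a with
    | nil =>
      obtain ⟨h1, h2⟩ := List.cons.inj h
      exact Or.inr ⟨h1.symm, h2 ▸ hb⟩
    | cons z a =>
      rw [List.cons_append] at h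
      obtain ⟨h1, h2⟩ := List.cons.inj h
      exact Or.inl ⟨a, b, h2, hb⟩
  · rintro (⟨a, b, rfl, hb⟩ | ⟨rfl, hb⟩)
    · exact ⟨y :: a, b, rfl, hb⟩
    · exact ⟨[], w, rfl, hb⟩

/-- reduced words -/
def Red (Γ : SimpleGraph V) (w : List (V × Bool)) : Prop :=
  ∀ a b x, ¬ Eqv Γ w (a ++ x :: inv x :: b)

theorem Red.eqv {w w' : List (V × Bool)} (h : Red Γ w) (e : Eqv Γ w w') : Red Γ w' :=
  fun a b x h' => h a b x (e.trans h')

theorem Red_nil : Red Γ ([] : List (V × Bool)) := by
  intro a b x h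
  have := h.length
  simp at this

theorem Red_cons {x : V × Bool} {w : List (V × Bool)} :
    Red Γ (x :: w) ↔ Red Γ w ∧ ¬ FA Γ (inv x) w := by
  constructor
  · intro h
    refine ⟨fun a b y h' => h (x :: a) b y (h'.cons x), fun h' => ?_⟩
    obtain ⟨w', hw'⟩ := FA_iff.mp h'
    exact h [] w' x (hw'.cons x)
  · rintro ⟨hr, hf⟩ a b y h
    have h1 : FA Γ x (a ++ y :: inv y :: b) := FA_iff.mpr ⟨w, h.symm⟩
    rw [FA_append] at h1
    rcases h1 with h1 | ⟨ha, h1⟩
    · obtain ⟨a', ha'⟩ := FA_iff.mp h1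
      have h2 : Eqv Γ (x :: w) (x :: (a' ++ y :: inv y :: b)) :=
        h.trans (ha'.append (Eqv.refl _))
      exact hr _ _ _ h2.cancel
    · rw [FA_cons, FA_cons] at h1
      rcases h1 with rfl | ⟨hadj, rfl | ⟨-, h1⟩⟩
      · have h2 : Eqv Γ (x :: w) (x :: (a ++ inv x :: b)) := h.trans (comm_front ha)
        have h3 : Eqv Γ w (inv x :: (a ++ b)) := h2.cancel.trans (comm_front (by simpa using ha))
        exact hf (FA_iff.mpr ⟨_, h3⟩)
      · exact Γ.loopless.irrefl _ hadj
      · obtain ⟨b', hb'⟩ := FA_iff.mp h1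
        have h2 : Eqv Γ (a ++ y :: inv y :: b) ((a ++ [y, inv y]) ++ x :: b') := by
          have := (Eqv.refl (Γ := Γ) (a ++ [y, inv y])).append hb'
          simpa using this
        have h3 : Eqv Γ ((a ++ [y, inv y]) ++ x :: b') (x :: ((a ++ [y, inv y]) ++ b')) := by
          refine comm_front fun z hz => ?_
          rcases List.mem_append.mp hz with hz | hz
          · exact ha z hz
          · simp only [List.mem_cons, List.not_mem_nil, or_false] at hz
            rcases hz with rfl | rfl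
            · exact hadj
            · exact hadj
        have h4 := ((h.trans h2).trans h3).cancel
        exact hr a b' y (by simpa using h4)

/-- Concatenation of reduced words without cross cancellation. -/
theorem Red_append {w r : List (V × Bool)} (hw : Red Γ w) (hr : Red Γ r)
    (h : ∀ x, LA Γ x w → ¬ FA Γ (inv x) r) : Red Γ (w ++ r) := by
  induction w with
  | nil => exact hr
  | cons y w ih =>
    rw [List.cons_append, Red_cons]
    rw [Red_cons] at hw
    refine ⟨ih hw.1 fun x hx => h x (LA_cons.mpr (Or.inl hx)), fun h1 => ?_⟩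
    rw [FA_append] at h1
    rcases h1 with h1 | ⟨h1, h2⟩
    · exact hw.2 h1
    · exact h y (LA_cons.mpr (Or.inr ⟨rfl, h1⟩)) h2

/-! ### Relabelling -/

/-- relabelling a letter by a permutation of the vertices -/
def rel (ψ : Equiv.Perm V) (x : V × Bool) : V × Bool := (ψ x.1, x.2)

/-- relabelling a word -/
def relw (ψ : Equiv.Perm V) (w : List (V × Bool)) : List (V × Bool) := w.map (rel ψ)

omit [DecidableEq V] in
@[simp] theorem rel_one (x : V × Bool) : rel (1 : Equiv.Perm V) x = x := rfl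

omit [DecidableEq V] in
theorem rel_mul (ψ χ : Equiv.Perm V) (x : V × Bool) : rel (ψ * χ) x = rel ψ (rel χ x) := rfl

omit [DecidableEq V] in
@[simp] theorem relw_one (w : List (V × Bool)) : relw (1 : Equiv.Perm V) w = w := by
  have h : rel (1 : Equiv.Perm V) = id := by funext x; rfl
  rw [relw, h, List.map_id]

omit [DecidableEq V] in
theorem relw_mul (ψ χ : Equiv.Perm V) (w : List (V × Bool)) :
    relw (ψ * χ) w = relw ψ (relw χ w) := by
  simp [relw, rel_mul, Function.comp_def]

omit [DecidableEq V] in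
@[simp] theorem rel_inv (ψ : Equiv.Perm V) (x : V × Bool) : rel ψ (inv x) = inv (rel ψ x) := rfl

omit [DecidableEq V] in
@[simp] theorem length_relw (ψ : Equiv.Perm V) (w : List (V × Bool)) :
    (relw ψ w).length = w.length := by simp [relw]

omit [DecidableEq V] in
theorem relw_append (ψ : Equiv.Perm V) (a b : List (V × Bool)) :
    relw ψ (a ++ b) = relw ψ a ++ relw ψ b := by simp [relw]

omit [DecidableEq V] in
theorem relw_cons (ψ : Equiv.Perm V) (x : V × Bool) (b : List (V × Bool)) :
    relw ψ (x :: b) = rel ψ x :: relw ψ b := by simp [relw]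

/-- `ψ` preserves adjacency -/
def Pres (Γ : SimpleGraph V) (ψ : Equiv.Perm V) : Prop :=
  ∀ u v, Γ.Adj (ψ u) (ψ v) ↔ Γ.Adj u v

omit [DecidableEq V] in
theorem Pres.one : Pres Γ (1 : Equiv.Perm V) := fun _ _ => Iff.rfl

omit [DecidableEq V] in
theorem Pres.mul {ψ χ : Equiv.Perm V} (h : Pres Γ ψ) (h' : Pres Γ χ) : Pres Γ (ψ * χ) :=
  fun u v => (h _ _).trans (h' u v)

omit [DecidableEq V] in
theorem Pres.inv {ψ : Equiv.Perm V} (h : Pres Γ ψ) : Pres Γ ψ⁻¹ := fun u v => by
  rw [← h]
  simp

omit [DecidableEq V] in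
theorem Pres.pow {ψ : Equiv.Perm V} (h : Pres Γ ψ) (n : ℕ) : Pres Γ (ψ ^ n) := by
  induction n with
  | zero => exact Pres.one
  | succ n ih => rw [pow_succ]; exact ih.mul h

theorem proj_relw (ψ : Equiv.Perm V) (u v : V) (w : List (V × Bool)) :
    proj (ψ u) (ψ v) (relw ψ w) = relw ψ (proj u v w) := by
  induction w with
  | nil => rfl
  | cons x w ih =>
    rw [relw_cons, proj_cons, proj_cons, ih]
    simp only [rel, EmbeddingLike.apply_eq_iff_eq]
    split_ifs
    · rfl
    · rfl

theorem Eqv.relw {ψ : Equiv.Perm V} (hψ : Pres Γ ψ) {w w' : List (V × Bool)} (h : Eqv Γ w w') :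
    Eqv Γ (relw ψ w) (relw ψ w') := by
  intro u v huv
  obtain ⟨u', rfl⟩ := ψ.surjective u
  obtain ⟨v', rfl⟩ := ψ.surjective v
  rw [proj_relw, proj_relw, h u' v' (fun e => huv ((hψ _ _).mpr e))]

theorem Red.relw {ψ : Equiv.Perm V} (hψ : Pres Γ ψ) {w : List (V × Bool)} (h : Red Γ w) :
    Red Γ (relw ψ w) := by
  intro a b x h'
  have h2 := h'.relw hψ.inv
  rw [← relw_mul, inv_mul_cancel, relw_one, relw_append, relw_cons, relw_cons, rel_inv] at h2
  exact h _ _ _ h2

omit [DecidableEq V] in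
theorem FA.relw {ψ : Equiv.Perm V} (hψ : Pres Γ ψ) {x : V × Bool} {w : List (V × Bool)}
    (h : FA Γ x w) : FA Γ (rel ψ x) (relw ψ w) := by
  obtain ⟨a, b, rfl, ha⟩ := h
  refine ⟨Vraag.relw ψ a, Vraag.relw ψ b, by rw [relw_append, relw_cons], ?_⟩
  intro y hy
  obtain ⟨z, hz, rfl⟩ := List.mem_map.mp hy
  exact (hψ _ _).mpr (ha z hz)

omit [DecidableEq V] in
theorem FA_relw {ψ : Equiv.Perm V} (hψ : Pres Γ ψ) {x : V × Bool} {w : List (V × Bool)} :
    FA Γ x (relw ψ w) ↔ FA Γ (rel ψ⁻¹ x) w := by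
  constructor
  · intro h
    have := h.relw hψ.inv
    rwa [← relw_mul, inv_mul_cancel, relw_one] at this
  · intro h
    have := h.relw hψ
    rwa [← rel_mul, mul_inv_cancel, rel_one] at this

omit [DecidableEq V] in
theorem LA.relw {ψ : Equiv.Perm V} (hψ : Pres Γ ψ) {x : V × Bool} {w : List (V × Bool)}
    (h : LA Γ x w) : LA Γ (rel ψ x) (relw ψ w) := by
  obtain ⟨a, b, rfl, ha⟩ := h
  refine ⟨Vraag.relw ψ a, Vraag.relw ψ b, by rw [relw_append, relw_cons], ?_⟩
  intro y hy
  obtain ⟨z, hz, rfl⟩ := List.mem_map.mp hy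
  exact (hψ _ _).mpr (ha z hz)

omit [DecidableEq V] in
theorem LA_relw {ψ : Equiv.Perm V} (hψ : Pres Γ ψ) {x : V × Bool} {w : List (V × Bool)} :
    LA Γ x (relw ψ w) ↔ LA Γ (rel ψ⁻¹ x) w := by
  constructor
  · intro h
    have := h.relw hψ.inv
    rwa [← relw_mul, inv_mul_cancel, relw_one] at this
  · intro h
    have := h.relw hψ
    rwa [← rel_mul, mul_inv_cancel, rel_one] at this

theorem Red_relw {ψ : Equiv.Perm V} (hψ : Pres Γ ψ) {w : List (V × Bool)} :
    Red Γ (relw ψ w) ↔ Red Γ w := by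
  constructor
  · intro h
    have := h.relw hψ.inv
    rwa [← relw_mul, inv_mul_cancel, relw_one] at this
  · exact fun h => h.relw hψ

end Pool.Agent.X238.Vraag
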